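import Pool.Agent.Y250.SS.Stm

/-!
# Project SS (MP_6cbfb8_an), job SS-GR: derivatives in graph coordinates
-/

set_option autoImplicit false
set_option linter.unusedSimpArgs false

namespace Pool.Agent.Z864.SS

open Pool.Agent.Y250.SS

lemma ev3_C (r a b c : ℝ) : ev3 (MvPolynomial.C r) a b c = r := by
  unfold ev3; simp

lemma ev3_add (P Q : Poly3) (a b c : ℝ) : ev3 (P + Q) a b c = ev3 P a b c + ev3 Q a b c := by
  unfold ev3; simp

lemma ev3_sub (P Q : Poly3) (a b c : ℝ) : ev3 (P - Q) a b c = ev3 P a b c - ev3 Q a b c := by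
  unfold ev3; simp

lemma ev3_mul (P Q : Poly3) (a b c : ℝ) : ev3 (P * Q) a b c = ev3 P a b c * ev3 Q a b c := by
  unfold ev3; simp

lemma ev3_zero (a b c : ℝ) : ev3 0 a b c = 0 := by
  unfold ev3; simp

lemma ev3_X0 (a b c : ℝ) : ev3 (MvPolynomial.X 0) a b c = a := by
  unfold ev3; simp

lemma ev3_X1 (a b c : ℝ) : ev3 (MvPolynomial.X 1) a b c = b := by
  unfold ev3; simp

lemma ev3_X2 (a b c : ℝ) : ev3 (MvPolynomial.X 2) a b c = c := by
  unfold ev3; simp

lemma ev3_X (i : Fin 3) (a b c : ℝ) : ev3 (MvPolynomial.X i) a b c = ![a, b, c] i := by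
  unfold ev3; simp

/-- partial derivatives commute -/
lemma pd_comm (i j : Fin 3) (p : Poly3) : pd i (pd j p) = pd j (pd i p) := by
  unfold pd
  have h : ⁅(MvPolynomial.pderiv i : Derivation ℝ Poly3 Poly3),
      (MvPolynomial.pderiv j : Derivation ℝ Poly3 Poly3)⁆ = 0 := by
    apply MvPolynomial.derivation_ext
    intro k
    rw [Derivation.commutator_apply]
    classical
    rw [MvPolynomial.pderiv_X, MvPolynomial.pderiv_X]
    simp only [Pi.single_apply]
    split_ifs <;> simp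
  have h2 := congrArg (fun D : Derivation ℝ Poly3 Poly3 => D p) h
  simp only [Derivation.commutator_apply, Derivation.coe_zero, Pi.zero_apply] at h2
  exact sub_eq_zero.mp h2

lemma pd_add (i : Fin 3) (p q : Poly3) : pd i (p + q) = pd i p + pd i q := by
  unfold pd; simp

lemma pd_sub (i : Fin 3) (p q : Poly3) : pd i (p - q) = pd i p - pd i q := by
  unfold pd; simp

lemma pd_mul (i : Fin 3) (p q : Poly3) : pd i (p * q) = pd i p * q + p * pd i q := by
  unfold pd; exact MvPolynomial.pderiv_mul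

lemma pd_C (i : Fin 3) (r : ℝ) : pd i (MvPolynomial.C r) = 0 := by
  unfold pd; simp

lemma pd_X (i j : Fin 3) : pd i (MvPolynomial.X j) = if i = j then 1 else 0 := by
  classical
  unfold pd
  rw [MvPolynomial.pderiv_X, Pi.single_apply]
  by_cases h : i = j
  · rw [if_pos h, if_pos h.symm]
  · rw [if_neg h, if_neg (fun h' => h h'.symm)]

lemma ev3_one (a b c : ℝ) : ev3 1 a b c = 1 := by
  unfold ev3; simp

/-- chain rule for polynomials in three variables -/
lemma ev3_fderiv (P : Poly3) {a b c : ℝ × ℝ → ℝ} {x : ℝ × ℝ} {a' b' c' : ℝ × ℝ →L[ℝ] ℝ}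
    (ha : HasFDerivAt a a' x) (hb : HasFDerivAt b b' x) (hc : HasFDerivAt c c' x) :
    HasFDerivAt (fun y => ev3 P (a y) (b y) (c y))
      (ev3 (pd 0 P) (a x) (b x) (c x) • a' + ev3 (pd 1 P) (a x) (b x) (c x) • b' +
        ev3 (pd 2 P) (a x) (b x) (c x) • c') x := by
  induction P using MvPolynomial.induction_on with
  | C r =>
    simp only [pd_C, ev3_C, ev3_zero, zero_smul, add_zero]
    exact hasFDerivAt_const r x
  | add p q hp hq =>
    simp only [pd_add, ev3_add]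
    refine (hp.add hq).congr_fderiv ?_
    module
  | mul_X p i hp =>
    have hX : HasFDerivAt (fun y => ev3 (MvPolynomial.X i) (a y) (b y) (c y))
        (ev3 (pd 0 (MvPolynomial.X i)) (a x) (b x) (c x) • a' +
          ev3 (pd 1 (MvPolynomial.X i)) (a x) (b x) (c x) • b' +
          ev3 (pd 2 (MvPolynomial.X i)) (a x) (b x) (c x) • c') x := by
      simp only [pd_X]
      fin_cases i
      · simpa [ev3_X0, ev3_one, ev3_zero] using ha
      · simpa [ev3_X1, ev3_one, ev3_zero] using hb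
      · simpa [ev3_X2, ev3_one, ev3_zero] using hc
    simp only [pd_mul, ev3_mul, ev3_add]
    refine (hp.mul hX).congr_fderiv ?_
    module

lemma lf_apply (a b : ℝ) (v : ℝ × ℝ) : lf a b v = a * v.1 + b * v.2 := by
  simp [lf]

lemma one_sub_pos {x : ℝ × ℝ} (hx : x.1 ^ 2 + x.2 ^ 2 < 1) : 0 < 1 - x.1 ^ 2 - x.2 ^ 2 := by
  linarith

lemma hh_pos {x : ℝ × ℝ} (hx : x.1 ^ 2 + x.2 ^ 2 < 1) : 0 < hh x :=
  Real.sqrt_pos.2 (one_sub_pos hx)

lemma hh_fderiv {x : ℝ × ℝ} (hx : x.1 ^ 2 + x.2 ^ 2 < 1) :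
    HasFDerivAt hh (lf (-(x.1 / hh x)) (-(x.2 / hh x))) x := by
  have h0 := hh_pos hx
  have h1 : HasFDerivAt (fun y : ℝ × ℝ => 1 - y.1 ^ 2 - y.2 ^ 2) (lf (-(2 * x.1)) (-(2 * x.2))) x := by
    have e1 : HasFDerivAt (fun y : ℝ × ℝ => y.1) (ContinuousLinearMap.fst ℝ ℝ ℝ) x := hasFDerivAt_fst
    have e2 : HasFDerivAt (fun y : ℝ × ℝ => y.2) (ContinuousLinearMap.snd ℝ ℝ ℝ) x := hasFDerivAt_snd
    refine (((hasFDerivAt_const (1 : ℝ) x).sub (e1.pow 2)).sub (e2.pow 2)).congr_fderiv ?_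
    ext <;> simp [lf]
  have h2 := h1.sqrt (one_sub_pos hx).ne'
  have h3 : HasFDerivAt hh ((1 / (2 * hh x)) • lf (-(2 * x.1)) (-(2 * x.2))) x := h2
  refine h3.congr_fderiv ?_
  ext
  · simp [lf]; field_simp
  · simp [lf]; field_simp

/-- the value of a polynomial on the lower half sphere -/
lemma ph_fderiv (P : Poly3) {x : ℝ × ℝ} (hx : x.1 ^ 2 + x.2 ^ 2 < 1) :
    HasFDerivAt (ph P) (lf (g1 P x) (g2 P x)) x := by
  have e1 : HasFDerivAt (fun y : ℝ × ℝ => y.1) (ContinuousLinearMap.fst ℝ ℝ ℝ) x := hasFDerivAt_fst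
  have e2 : HasFDerivAt (fun y : ℝ × ℝ => y.2) (ContinuousLinearMap.snd ℝ ℝ ℝ) x := hasFDerivAt_snd
  have e3 : HasFDerivAt (fun y : ℝ × ℝ => -hh y) (-lf (-(x.1 / hh x)) (-(x.2 / hh x))) x :=
    (hh_fderiv hx).neg
  have h := ev3_fderiv P e1 e2 e3
  refine h.congr_fderiv ?_
  ext
  · simp [lf, g1, g2]; ring
  · simp [lf, g1, g2]; ring

lemma q1_fderiv {x : ℝ × ℝ} (hx : x.1 ^ 2 + x.2 ^ 2 < 1) :
    HasFDerivAt (fun y : ℝ × ℝ => y.1 / hh y) (lf (G11 x) (G12 x)) x := by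
  have h0 := hh_pos hx
  have e1 : HasFDerivAt (fun y : ℝ × ℝ => y.1) (ContinuousLinearMap.fst ℝ ℝ ℝ) x := hasFDerivAt_fst
  have h := e1.mul ((hasDerivAt_inv h0.ne').comp_hasFDerivAt x (hh_fderiv hx))
  refine (h.congr_of_eventuallyEq (Filter.Eventually.of_forall fun y => ?_)).congr_fderiv ?_
  · simp [div_eq_mul_inv]
  · ext
    · simp [lf, G11, G12]; field_simp; ring
    · simp [lf, G11, G12]; field_simp

lemma q2_fderiv {x : ℝ × ℝ} (hx : x.1 ^ 2 + x.2 ^ 2 < 1) :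
    HasFDerivAt (fun y : ℝ × ℝ => y.2 / hh y) (lf (G12 x) (G22 x)) x := by
  have h0 := hh_pos hx
  have e1 : HasFDerivAt (fun y : ℝ × ℝ => y.2) (ContinuousLinearMap.snd ℝ ℝ ℝ) x := hasFDerivAt_snd
  have h := e1.mul ((hasDerivAt_inv h0.ne').comp_hasFDerivAt x (hh_fderiv hx))
  refine (h.congr_of_eventuallyEq (Filter.Eventually.of_forall fun y => ?_)).congr_fderiv ?_
  · simp [div_eq_mul_inv]
  · ext
    · simp [lf, G22, G12]; field_simp
    · simp [lf, G22, G12]; field_simp; ring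

/-- job SS-GR -/
theorem gr : S_GR := by
  intro P x hx
  refine ⟨ph_fderiv P hx, ?_, ?_⟩
  · have h := (ph_fderiv (pd 0 P) hx).add ((q1_fderiv hx).mul (ph_fderiv (pd 2 P) hx))
    have h' : HasFDerivAt (g1 P) _ x := h
    refine h'.congr_fderiv ?_
    have c1 := pd_comm 2 0 P
    have c2 := pd_comm 1 0 P
    have c3 := pd_comm 2 1 P
    ext
    · simp only [lf, g1, g2, ph, H11, H12, c1, c2, c3]; simp; ring
    · simp only [lf, g1, g2, ph, H11, H12, c1, c2, c3]; simp; ring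
  · have h := (ph_fderiv (pd 1 P) hx).add ((q2_fderiv hx).mul (ph_fderiv (pd 2 P) hx))
    have h' : HasFDerivAt (g2 P) _ x := h
    refine h'.congr_fderiv ?_
    have c1 := pd_comm 2 0 P
    have c2 := pd_comm 1 0 P
    have c3 := pd_comm 2 1 P
    ext
    · simp only [lf, g1, g2, ph, H22, H12, c1, c2, c3]; simp; ring
    · simp only [lf, g1, g2, ph, H22, H12, c1, c2, c3]; simp; ring

lemma pd_one (i : Fin 3) : pd i 1 = 0 := by
  unfold pd; simp

/-- job SS-GR, second part -/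
theorem twp : S_TW := by
  intro P y t
  refine ⟨?_, ?_, ?_, ?_, ?_⟩
  · intro n hn hP
    have key : ∀ (r : ℝ) (i : Fin 3), (MvPolynomial.C r * MvPolynomial.X i : Poly3).totalDegree ≤ n := by
      intro r i
      refine (MvPolynomial.totalDegree_mul _ _).trans ?_
      rw [MvPolynomial.totalDegree_C, MvPolynomial.totalDegree_X]
      omega
    unfold tw
    refine (MvPolynomial.totalDegree_sub _ _).trans (max_le ?_ (key _ _))
    refine (MvPolynomial.totalDegree_add _ _).trans (max_le ?_ (key _ _))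
    exact (MvPolynomial.totalDegree_add _ _).trans (max_le hP (key _ _))
  · intro x
    simp only [ph, tw, ev3_add, ev3_sub, ev3_mul, ev3_C, ev3_X0, ev3_X1, ev3_X2]
    ring
  · intro x
    simp [H11, tw, pd_add, pd_sub, pd_mul, pd_C, pd_X, pd_one, ev3_add, ev3_sub, ev3_mul, ev3_C, ev3_X0,
      ev3_X1, ev3_X2, ev3_one, ev3_zero]
    ring
  · intro x
    simp [H12, tw, pd_add, pd_sub, pd_mul, pd_C, pd_X, pd_one, ev3_add, ev3_sub, ev3_mul, ev3_C, ev3_X0,
      ev3_X1, ev3_X2, ev3_one, ev3_zero]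
    ring
  · intro x
    simp [H22, tw, pd_add, pd_sub, pd_mul, pd_C, pd_X, pd_one, ev3_add, ev3_sub, ev3_mul, ev3_C, ev3_X0,
      ev3_X1, ev3_X2, ev3_one, ev3_zero]
    ring

end Pool.Agent.Z864.SS
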